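import Pool.Agent.Helper74_RL.Stmts

/-!
# RLB, module CHN: small contractible neighbourhoods in topological manifolds
-/

noncomputable section

open scoped Topology
open Set Metric

namespace Pool.Agent.RLim.H47

open Pool.Agent.RLim

/-- CHN -/
theorem chn : ChnStmt := by
  intro X _ T hT hch x hx W hW
  obtain ⟨inst⟩ := hch
  let e : OpenPartialHomeomorph T (EuclideanSpace ℝ (Fin 4)) :=
    chartAt (EuclideanSpace ℝ (Fin 4)) (⟨x, hx⟩ : T)
  have hxs : (⟨x, hx⟩ : T) ∈ e.source := mem_chart_source _ _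
  have hW' : (Subtype.val ⁻¹' W : Set T) ∈ 𝓝 (⟨x, hx⟩ : T) :=
    continuous_subtype_val.continuousAt.preimage_mem_nhds hW
  have h1 : e.target ∩ e.symm ⁻¹' (Subtype.val ⁻¹' W : Set T) ∈ 𝓝 (e ⟨x, hx⟩) := by
    refine Filter.inter_mem (e.open_target.mem_nhds (e.map_source hxs)) ?_
    apply (e.continuousAt_symm (e.map_source hxs)).preimage_mem_nhds
    rw [e.left_inv hxs]
    exact hW'
  obtain ⟨r, hr, hball⟩ := Metric.mem_nhds_iff.1 h1
  -- the small ball, as an open subset of X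
  have hsub : ball (e ⟨x, hx⟩) r ⊆ e.target := fun y hy => (hball hy).1
  let g : ball (e ⟨x, hx⟩) r → X := fun y =>
    (((e.toHomeomorphSourceTarget.symm (Set.inclusion hsub y) : e.source) : T) : X)
  have hg : Topology.IsEmbedding g := by
    refine Topology.IsEmbedding.subtypeVal.comp ?_
    refine Topology.IsEmbedding.subtypeVal.comp ?_
    exact e.toHomeomorphSourceTarget.symm.isEmbedding.comp (Topology.IsEmbedding.inclusion hsub)
  have hgv : ∀ y, g y = ((e.symm y.1 : T) : X) := fun y => rfl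
  have hrange : range g = Subtype.val '' (e.source ∩ e ⁻¹' ball (e ⟨x, hx⟩) r) := by
    ext z
    constructor
    · rintro ⟨y, rfl⟩
      refine ⟨e.symm y.1, ⟨e.map_target (hsub y.2), ?_⟩, (hgv y).symm⟩
      rw [mem_preimage, e.right_inv (hsub y.2)]
      exact y.2
    · rintro ⟨t, ⟨ht1, ht2⟩, rfl⟩
      refine ⟨⟨e t, ht2⟩, ?_⟩
      rw [hgv, e.left_inv ht1]
  refine ⟨range g, ?_, ?_, ?_, ?_, ?_⟩
  · rintro z ⟨y, rfl⟩
    exact (hball y.2).2
  · rintro z ⟨y, rfl⟩
    rw [hgv]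
    exact (e.symm y.1).2
  · rw [hrange]
    exact ⟨⟨x, hx⟩, ⟨hxs, mem_ball_self hr⟩, rfl⟩
  · rw [hrange]
    apply hT.isOpenMap_subtype_val
    exact e.isOpen_inter_preimage isOpen_ball
  · have h2 : ContractibleSpace (ball (e ⟨x, hx⟩) r) :=
      (convex_ball _ _).contractibleSpace ⟨_, mem_ball_self hr⟩
    exact hg.toHomeomorph.symm.contractibleSpace

end Pool.Agent.RLim.H47
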