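import Pool.Agent.Helper74_RL.Stmts

/-!
# RLB, module KPT: small sets do not contain all the points over `K`
-/

noncomputable section

open scoped Topology ENNReal NNReal
open Set Metric

namespace Pool.Agent.RLim.H47

open Pool.Agent.RLim

/-- KPT -/
theorem kpt : KptStmt := by
  intro D S hS
  by_contra hcon
  push Not at hcon
  let π : BlI D → ℝ × ℝ := fun y => (y.1.1 0, y.1.1 1)
  have hcoord : ∀ (X Y : E4) (i : Fin 4), |X i - Y i| ≤ dist X Y := by
    intro X Y i
    have h1 := PiLp.norm_apply_le (X - Y) i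
    rw [dist_eq_norm]
    simpa using h1
  have hπ : LipschitzWith 1 π := by
    apply LipschitzWith.of_dist_le_mul
    intro y y'
    have h1 : dist y.1.1 y'.1.1 ≤ dist y y' := by
      have : dist y y' = dist y.1 y'.1 := rfl
      rw [this, Prod.dist_eq]
      exact le_max_left _ _
    rw [NNReal.coe_one, one_mul, Prod.dist_eq]
    refine max_le ?_ ?_
    · exact (hcoord _ _ 0).trans h1
    · exact (hcoord _ _ 1).trans h1
  have h1 : dimH (π '' S) ≤ 1 := (hπ.dimH_image_le S).trans hS
  have h2 : (fun X : E4 => (X 0, X 1)) '' D.K ⊆ π '' S := by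
    rintro _ ⟨X, hX, rfl⟩
    refine ⟨psiI D X, ?_, rfl⟩
    by_contra h3
    exact hcon (psiI D X) h3 hX
  have h3 : MeasureTheory.Measure.hausdorffMeasure ((2 : ℝ≥0) : ℝ)
      ((fun X : E4 => (X 0, X 1)) '' D.K) ≠ 0 := by
    have h4 : ((2 : ℝ≥0) : ℝ) = 2 := by norm_num
    rw [h4, MeasureTheory.hausdorffMeasure_prod_real]
    exact D.K_area.ne'
  have h4 := le_dimH_of_hausdorffMeasure_ne_zero h3
  have h5 : ((2 : ℝ≥0) : ℝ≥0∞) ≤ 1 := h4.trans ((dimH_mono h2).trans h1)
  norm_num at h5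

end Pool.Agent.RLim.H47
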